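import Mathlib

namespace Pool.Agent.Results.MP_fb4a47_lc.NonRegular

/-- One application of a rule `x^n → x^(n+m)`: `u x^n v ⇒ u x^(n+m) v`. -/
def Step {A : Type} (n m : ℕ) (z z' : List A) : Prop :=
  ∃ u v x : List A, z = u ++ (List.replicate n x).flatten ++ v ∧
    z' = u ++ (List.replicate (n + m) x).flatten ++ v

/-- The language of all words derivable from `w`. -/
def L {A : Type} (n m : ℕ) (w : List A) : Language A :=
  {v | Relation.ReflTransGen (Step n m) w v}

section general
variable {A : Type}

lemma pw_len (x : List A) (r : ℕ) : (List.replicate r x).flatten.length = r * x.length := by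
  induction r with
  | zero => simp
  | succ r ih => rw [List.replicate_succ, List.flatten_cons, List.length_append, ih]; ring

lemma pw_get (x : List A) (r : ℕ) : ∀ i, i < r * x.length →
    (List.replicate r x).flatten[i]? = x[i % x.length]? := by
  induction r with
  | zero => intro i hi; simp at hi
  | succ r ih =>
    intro i hi
    rw [List.replicate_succ, List.flatten_cons, List.getElem?_append]
    split_ifs with h
    · rw [Nat.mod_eq_of_lt h]
    · push_neg at h
      rw [ih (i - x.length) (by rw [Nat.succ_mul] at hi; omega), ← Nat.mod_eq_sub_mod h]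

lemma get3 (u y v : List A) (i : ℕ) : (u ++ y ++ v)[i]? =
    if i < u.length then u[i]? else if i < u.length + y.length then y[i - u.length]?
      else v[i - (u.length + y.length)]? := by
  rw [List.getElem?_append, List.getElem?_append, List.length_append]
  split_ifs <;> first | rfl | omega

def Agree (P : ℕ → A) (z : List A) (N : ℕ) : Prop := ∀ i < N, z[i]? = some (P i)

lemma Agree.le {P : ℕ → A} {z : List A} {N : ℕ} (h : Agree P z N) : N ≤ z.length := by
  by_contra hc
  have := h z.length (by omega)
  simp at this

lemma lower (P : ℕ → A) (n m : ℕ) (hn : 1 ≤ n) (hm : 1 ≤ m) (w : List A)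
    (hfree : ∀ s p, 0 < p → ¬ ∀ d, d + p < (n + m) * p → P (s + d + p) = P (s + d))
    (z : List A) (hz : Relation.ReflTransGen (Step n m) w z) :
    ∀ N, Agree P z N → N ≤ w.length * (n + m) ^ (z.length - N) := by
  induction hz with
  | refl =>
    intro N h
    exact h.le.trans (Nat.le_mul_of_pos_right _ (by positivity))
  | @tail z' z _ hst ih =>
    intro N h
    obtain ⟨u, v, x, h1, h2⟩ := hst
    rcases Nat.eq_zero_or_pos x.length with hx | hx
    · have : x = [] := List.length_eq_zero_iff.mp hx
      subst this
      have : z = z' := by rw [h1, h2]; simp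
      subst this
      exact ih N h
    have l1 : z'.length = u.length + n * x.length + v.length := by
      rw [h1]; simp only [List.length_append, pw_len]
    have l2 : z.length = u.length + (n + m) * x.length + v.length := by
      rw [h2]; simp only [List.length_append, pw_len]
    have hle := h.le
    have hmul : (n + m) * x.length = n * x.length + m * x.length := by ring
    have hmp : 0 < m * x.length := by positivity
    have hE : N < u.length + (n + m) * x.length := by
      by_contra hc
      push_neg at hc
      apply hfree u.length x.length hx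
      intro d hd
      have e1 := h (u.length + d + x.length) (by omega)
      have e2 := h (u.length + d) (by omega)
      rw [h2, get3, pw_len, if_neg (by omega), if_pos (by omega), pw_get _ _ _ (by omega)] at e1 e2
      have : (u.length + d + x.length - u.length) % x.length = (u.length + d - u.length) % x.length := by
        rw [show u.length + d + x.length - u.length = d + x.length by omega,
          show u.length + d - u.length = d by omega, Nat.add_mod_right]
      rw [this, e2] at e1
      exact (Option.some.inj e1).symm
    have hag : ∀ i, i < u.length + n * x.length → z'[i]? = z[i]? := by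
      intro i hi
      rw [h1, h2, get3, get3, pw_len, pw_len]
      split_ifs with c1 c2
      · rfl
      · rw [pw_get _ _ _ (by omega), pw_get _ _ _ (by omega)]
      · omega
    have hr : 1 ≤ n + m := by omega
    by_cases hM : u.length + n * x.length ≤ N
    · have := ih (u.length + n * x.length) (fun i hi => by rw [hag i hi]; exact h i (by omega))
      have e : z'.length - (u.length + n * x.length) = v.length := by omega
      rw [e] at this
      have h3 : N ≤ (n + m) * (u.length + n * x.length) := by
        have : (n + m) * x.length ≤ (n + m) * (n * x.length) :=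
          Nat.mul_le_mul_left _ (Nat.le_mul_of_pos_left _ hn)
        have : u.length ≤ (n + m) * u.length := Nat.le_mul_of_pos_left _ hr
        rw [Nat.mul_add (n + m)]
        omega
      calc N ≤ (n + m) * (w.length * (n + m) ^ v.length) := h3.trans (Nat.mul_le_mul_left _ this)
        _ = w.length * (n + m) ^ (v.length + 1) := by ring
        _ ≤ _ := Nat.mul_le_mul_left _ (Nat.pow_le_pow_right hr (by omega))
    · have := ih N (fun i hi => by rw [hag i (by omega)]; exact h i hi)
      exact this.trans (Nat.mul_le_mul_left _ (Nat.pow_le_pow_right hr (by omega)))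

lemma extend (P : ℕ → A) (n m : ℕ) (hm : 1 ≤ m) (z : List A) (s p : ℕ) (hp : 0 < p)
    (hper : ∀ d, d + p ≤ n * p → P (s + d + p) = P (s + d)) (h : Agree P z (s + n * p)) :
    ∃ z', Step n m z z' ∧ Agree P z' (s + n * p + 1) := by
  have hmod : ∀ d, d ≤ n * p → P (s + d) = P (s + d % p) := by
    intro d
    induction d using Nat.strong_induction_on with
    | _ d ih =>
      intro hd
      by_cases c : d < p
      · rw [Nat.mod_eq_of_lt c]
      · push_neg at c
        rw [Nat.mod_eq_sub_mod c, ← ih (d - p) (by omega) (by omega), ← hper (d - p) (by omega)]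
        congr 1; omega
  have hle := h.le
  set x : List A := (List.range p).map (fun d => P (s + d)) with hx
  have lx : x.length = p := by simp [hx]
  have gx : ∀ d, x[d % p]? = some (P (s + d % p)) := by
    intro d
    have : d % p < p := Nat.mod_lt _ hp
    simp [hx, this]
  have lu : (z.take s).length = s := by rw [List.length_take]; omega
  have hmul : (n + m) * p = n * p + m * p := by ring
  have hmp : 0 < m * p := by positivity
  refine ⟨_, ⟨z.take s, z.drop (s + n * p), x, ?_, rfl⟩, ?_⟩
  · apply List.ext_getElem?
    intro i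
    rw [get3, pw_len, lu, lx]
    split_ifs with c1 c2
    · rw [List.getElem?_take, if_pos c1]
    · rw [pw_get _ _ _ (by rw [lx]; omega), lx, gx, h i c2, ← hmod _ (by omega)]
      congr 2; omega
    · rw [List.getElem?_drop]; congr 1; omega
  · intro i hi
    rw [get3, pw_len, lu, lx]
    split_ifs with c1 c2
    · rw [List.getElem?_take, if_pos c1]; exact h i (by omega)
    · rw [pw_get _ _ _ (by rw [lx]; omega), lx, gx, ← hmod _ (by omega)]
      congr 2; omega
    · omega

theorem general (P : ℕ → A) (n m j0 : ℕ) (hn : 1 ≤ n) (hm : 1 ≤ m)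
    (hfree : ∀ s p, 0 < p → ¬ ∀ d, d + p < (n + m) * p → P (s + d + p) = P (s + d))
    (hsuf : ∀ j, j0 ≤ j → ∃ s p, 0 < p ∧ j = s + n * p ∧
      ∀ d, d + p ≤ n * p → P (s + d + p) = P (s + d)) :
    ¬ (L n m ((List.range j0).map P)).IsRegular := by
  classical
  set w := (List.range j0).map P with hw
  have hall : ∀ j, j0 ≤ j → ∃ z, Relation.ReflTransGen (Step n m) w z ∧ Agree P z j := by
    intro j hj
    induction j, hj using Nat.le_induction with
    | base => exact ⟨w, .refl, fun i hi => by simp [hw, hi]⟩
    | succ j hj ih =>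
      obtain ⟨z, hz, ha⟩ := ih
      obtain ⟨s, p, hp, rfl, hper⟩ := hsuf j hj
      obtain ⟨z', h1, h2⟩ := extend P n m hm z s p hp hper ha
      exact ⟨z', hz.tail h1, h2⟩
  intro hreg
  rw [Language.isRegular_iff_finite_range_leftQuotient] at hreg
  let g : Language A → ℕ := fun K => if h : ∃ v, v ∈ K then h.choose.length else 0
  obtain ⟨B, hB⟩ := (hreg.image g).bddAbove
  set N := j0 + w.length * (n + m) ^ B + 1 with hN
  obtain ⟨z, hz, ha⟩ := hall N (by omega)
  have hle := ha.le
  have hex : ∃ v, v ∈ (L n m w).leftQuotient (z.take N) :=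
    ⟨z.drop N, by rw [Language.mem_leftQuotient, List.take_append_drop]; exact hz⟩
  have hb : g ((L n m w).leftQuotient (z.take N)) ≤ B := hB ⟨_, ⟨_, rfl⟩, rfl⟩
  simp only [g, dif_pos hex] at hb
  have hv := hex.choose_spec
  rw [Language.mem_leftQuotient] at hv
  have lt : (z.take N).length = N := by rw [List.length_take]; omega
  have := lower P n m hn hm w hfree _ hv N (fun i hi => by
    rw [List.getElem?_append, if_pos (by omega), List.getElem?_take, if_pos hi]; exact ha i hi)
  rw [List.length_append, lt, Nat.add_sub_cancel_left] at this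
  have h2 : w.length * (n + m) ^ hex.choose.length ≤ w.length * (n + m) ^ B :=
    Nat.mul_le_mul_left _ (Nat.pow_le_pow_right (by omega) hb)
  omega

end general

def blk (x : Bool) (r : ℕ) : Bool :=
  if r = 0 then x else if r = 1 then !x else if r = 4 then false else true

def Pf : ℕ → ℕ → Bool
  | 0, _ => false
  | f + 1, n => if n = 0 then false else blk (Pf f (n / 7)) (n % 7)

def P (n : ℕ) : Bool := Pf n n

lemma Pf_stable : ∀ f g n, n ≤ f → n ≤ g → Pf f n = Pf g n := by
  intro f
  induction f with
  | zero =>
    intro g n h _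
    have : n = 0 := by omega
    subst this
    cases g <;> simp [Pf]
  | succ f ih =>
    intro g n h1 h2
    cases g with
    | zero =>
      have : n = 0 := by omega
      subst this
      simp [Pf]
    | succ g =>
      simp only [Pf]
      split_ifs with c
      · rfl
      · rw [ih g (n / 7) (by omega) (by omega)]

lemma P_eq (n : ℕ) : P n = blk (P (n / 7)) (n % 7) := by
  rcases n with _ | n
  · rfl
  · unfold P
    simp only [Pf]
    rw [if_neg (by omega), Pf_stable n ((n + 1) / 7) ((n + 1) / 7) (by omega) le_rfl]

def sel (a b c d : Bool) (k : ℕ) : Bool :=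
  if k = 0 then a else if k = 1 then b else if k = 2 then c else d

lemma P_win (i t : ℕ) (ht : t < 28) :
    P (7 * i + t) = blk (sel (P i) (P (i + 1)) (P (i + 2)) (P (i + 3)) (t / 7)) (t % 7) := by
  rw [P_eq, show (7 * i + t) / 7 = i + t / 7 by omega, show (7 * i + t) % 7 = t % 7 by omega]
  have : t / 7 < 4 := by omega
  generalize t / 7 = k at *
  interval_cases k <;> simp [sel]

lemma no00 (i : ℕ) : (P i || P (i + 1)) = true := by
  have h1 := P_win (i / 7) (i % 7) (by omega)
  have h2 := P_win (i / 7) (i % 7 + 1) (by omega)
  rw [show 7 * (i / 7) + i % 7 = i by omega] at h1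
  rw [show 7 * (i / 7) + (i % 7 + 1) = i + 1 by omega] at h2
  rw [h1, h2]
  have : i % 7 < 7 := Nat.mod_lt _ (by norm_num)
  generalize i % 7 = r at *
  generalize P (i / 7) = a
  generalize P (i / 7 + 1) = b
  generalize P (i / 7 + 2) = c
  generalize P (i / 7 + 3) = d
  revert a b c d
  interval_cases r <;> decide

lemma sync_fin : ∀ a b c a' b' c' : Bool, (a || b) = true → (b || c) = true → (a' || b') = true →
    (b' || c') = true → ∀ r < 7, ∀ r' < 7, (∀ t < 13,
      blk (sel a b c c ((r + t) / 7)) ((r + t) % 7) =
        blk (sel a' b' c' c' ((r' + t) / 7)) ((r' + t) % 7)) → r = r' := by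
  decide +kernel

lemma small_fin : ∀ a b c d : Bool, (a || b) = true → (b || c) = true → (c || d) = true →
    ∀ r < 7, ∀ p < 5, 0 < p → ¬ ∀ t < 3 * p,
      blk (sel a b c d ((r + t + p) / 7)) ((r + t + p) % 7) =
        blk (sel a b c d ((r + t) / 7)) ((r + t) % 7) := by
  decide +kernel

lemma sel3 (a b c d : Bool) (k : ℕ) (hk : k < 3) : sel a b c d k = sel a b c c k := by
  interval_cases k <;> simp [sel]

lemma free4 : ∀ p s, 0 < p → ¬ ∀ d, d < 3 * p → P (s + d + p) = P (s + d) := by
  intro p
  induction p using Nat.strong_induction_on with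
  | _ p ih =>
    intro s hp h
    by_cases c : p < 5
    · apply small_fin _ _ _ _ (no00 (s / 7)) (no00 (s / 7 + 1)) (no00 (s / 7 + 2)) (s % 7)
        (Nat.mod_lt _ (by norm_num)) p c hp
      intro t ht
      have := h t ht
      rw [show s + t + p = 7 * (s / 7) + (s % 7 + t + p) by omega,
        show s + t = 7 * (s / 7) + (s % 7 + t) by omega, P_win _ _ (by omega),
        P_win _ _ (by omega)] at this
      exact this
    · have hs : (s + p) % 7 = s % 7 := by
        apply sync_fin _ _ _ _ _ _ (no00 ((s + p) / 7)) (no00 ((s + p) / 7 + 1)) (no00 (s / 7))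
          (no00 (s / 7 + 1)) _ (Nat.mod_lt _ (by norm_num)) _ (Nat.mod_lt _ (by norm_num))
        intro t ht
        have := h t (by omega)
        rw [show s + t + p = 7 * ((s + p) / 7) + ((s + p) % 7 + t) by omega,
          show s + t = 7 * (s / 7) + (s % 7 + t) by omega, P_win _ _ (by omega),
          P_win _ _ (by omega), sel3 _ _ _ _ _ (by omega), sel3 _ _ _ (P (s / 7 + 3)) _ (by omega)]
          at this
        exact this
      obtain ⟨q, rfl⟩ : ∃ q, p = 7 * q := ⟨p / 7, by omega⟩
      apply ih q (by omega) ((s + 6) / 7) (by omega)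
      intro d hd
      have := h (7 * ((s + 6) / 7 + d) - s) (by omega)
      rw [show s + (7 * ((s + 6) / 7 + d) - s) + 7 * q = 7 * ((s + 6) / 7 + d + q) by omega,
        show s + (7 * ((s + 6) / 7 + d) - s) = 7 * ((s + 6) / 7 + d) by omega,
        P_eq, P_eq (7 * ((s + 6) / 7 + d))] at this
      simpa [blk] using this

lemma base_fin : ∀ j < 308, 44 ≤ j → ∃ p < 71, 0 < p ∧ 2 * p ≤ j ∧
    ∀ d < p + 1, P (j - 2 * p + d + p) = P (j - 2 * p + d) := by
  decide +kernel

lemma suf : ∀ j, 44 ≤ j → ∃ s p, 0 < p ∧ j = s + 2 * p ∧
    ∀ d, d + p ≤ 2 * p → P (s + d + p) = P (s + d) := by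
  intro j
  induction j using Nat.strong_induction_on with
  | _ j ih =>
    intro hj
    by_cases c : j < 308
    · obtain ⟨p, _, hp, h2, h3⟩ := base_fin j c hj
      exact ⟨j - 2 * p, p, hp, by omega, fun d hd => h3 d (by omega)⟩
    · obtain ⟨s, p, hp, h2, h3⟩ := ih (j / 7) (by omega) (by omega)
      refine ⟨j - 14 * p, 7 * p, by omega, by omega, fun d hd => ?_⟩
      rw [P_eq, P_eq (j - 14 * p + d)]
      have := h3 ((j - 14 * p + d) / 7 - s) (by omega)
      rw [show (j - 14 * p + d + 7 * p) / 7 = s + ((j - 14 * p + d) / 7 - s) + p by omega,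
        show (j - 14 * p + d + 7 * p) % 7 = (j - 14 * p + d) % 7 by omega, this]
      congr 2
      omega

theorem result : ∀ m : ℕ, 2 ≤ m → ∃ w : List Bool, ¬ (L 2 m w).IsRegular := by
  intro m hm
  refine ⟨_, general P 2 m 44 (by norm_num) (by omega) ?_ suf⟩
  intro s p hp h
  apply free4 p s hp
  intro d hd
  apply h
  have : 4 * p ≤ (2 + m) * p := Nat.mul_le_mul_right _ (by omega)
  omega

end Pool.Agent.Results.MP_fb4a47_lc.NonRegular
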